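import Pool.Agent.H53.MW.Targets

/-!
MP_c62aed_lc (permanent lines and work memory), row KSX of the board mwk_modules: the spread kernels
are monotone, their cubes are small, the kernels of a real function form a chain.
-/

set_option autoImplicit false

namespace Pool.Agent.H69.MW

open Finset
open Pool.Agent.H53.MW
open Pool.Agent.H15.FLX (BR)

theorem pf_KSX (hSZ : T_SZ) : T_KSX := by
  intro n M k g d s₀ w θ hw hθ
  have h1 : ∀ B B' : Finset (Fin n → Bool), B ⊆ B' → KerS g d s₀ θ B ⊆ KerS g d s₀ θ B' := by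
    rintro B B' hB p ⟨Q, hQ, hs, hc⟩
    exact ⟨Q, hQ.trans hB, hs, hc⟩
  refine ⟨h1, ?_, ?_⟩
  · rintro B p ⟨Q, -, hs, hc⟩
    exact hSZ g d s₀ w p Q hw hs (hθ.trans_le hc)
  · intro f i
    have hmono : ∀ a b : ℝ, a ≤ b →
        BR (ES g d s₀ θ f i) (f i) a ⊆ BR (ES g d s₀ θ f i) (f i) b := by
      intro a b hab x hx
      unfold BR at hx ⊢
      rw [mem_filter] at hx ⊢
      exact ⟨hx.1, hx.2.1, hx.2.2.trans_le hab⟩
    rintro K ⟨a, rfl⟩ K' ⟨b, rfl⟩ _
    rcases le_total a b with hab | hab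
    · exact Or.inl (h1 _ _ (hmono a b hab))
    · exact Or.inr (h1 _ _ (hmono b a hab))

end Pool.Agent.H69.MW
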